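import Pool.Agent.Y467.CE.Mix

/-!
# Convolution and mass of the measures of lists

Job CE-CONV of helper171, done by helper467.
-/

set_option autoImplicit false

namespace Pool.Agent.Y467.CE

open Pool.Agent.Y171.CE

section fin

variable {M : Type} [AddCommGroup M] [Fintype M]

open Classical in
/-- the number of elements of a subgroup -/
theorem card_sum (U : AddSubgroup M) : ∑ v : M, (if v ∈ U then (1 : ℝ) else 0) = (Nat.card U : ℝ) := by
  rw [Finset.sum_boole, Nat.card_eq_fintype_card, Fintype.card_subtype]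

open Classical in
/-- the number of ways to write `y` as a sum -/
theorem sum_count (U W : AddSubgroup M) (y : M) :
    (∑ v : M, (if v ∈ U then (1 : ℝ) else 0) * (if y - v ∈ W then (1 : ℝ) else 0)) *
      (Nat.card (U ⊔ W : AddSubgroup M) : ℝ) =
      if y ∈ U ⊔ W then (Nat.card U : ℝ) * (Nat.card W : ℝ) else 0 := by
  set N : M → ℝ := fun y => ∑ v : M, (if v ∈ U then (1 : ℝ) else 0) * (if y - v ∈ W then (1 : ℝ) else 0)
    with hN
  have h0 : ∀ y, y ∉ U ⊔ W → N y = 0 := by
    intro y hy
    refine Finset.sum_eq_zero (fun v _ => ?_)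
    by_cases hv : v ∈ U
    · rw [if_neg (c := y - v ∈ W), mul_zero]
      intro hw
      apply hy
      have : y = v + (y - v) := by abel
      rw [this]
      exact AddSubgroup.add_mem_sup hv hw
    · rw [if_neg hv, zero_mul]
  have h1 : ∀ y, y ∈ U ⊔ W → N y = N 0 := by
    intro y hy
    obtain ⟨u, hu, w, hw, rfl⟩ := AddSubgroup.mem_sup.mp hy
    refine Fintype.sum_equiv (Equiv.subRight u) _ _ (fun v => ?_)
    simp only [Equiv.subRight_apply]
    have e1 : (v - u ∈ U) ↔ (v ∈ U) := by
      rw [sub_eq_add_neg]; exact U.add_mem_cancel_right (U.neg_mem hu)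
    have e2 : (0 - (v - u) ∈ W) ↔ (u + w - v ∈ W) := by
      have : u + w - v = 0 - (v - u) + w := by abel
      rw [this]
      exact (W.add_mem_cancel_right hw).symm
    simp only [e1, e2]
  have h2 : ∑ y, N y = (Nat.card U : ℝ) * (Nat.card W : ℝ) := by
    rw [hN]
    simp only
    rw [Finset.sum_comm]
    have : ∀ v, ∑ y, (if v ∈ U then (1 : ℝ) else 0) * (if y - v ∈ W then (1 : ℝ) else 0) =
        (if v ∈ U then (1 : ℝ) else 0) * (Nat.card W : ℝ) := by
      intro v
      rw [← Finset.mul_sum, ← card_sum W]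
      congr 1
      exact Fintype.sum_equiv (Equiv.subRight v) _ _ (fun y => rfl)
    rw [Finset.sum_congr rfl (fun v _ => this v), ← Finset.sum_mul, card_sum]
  have h3 : ∑ y, N y = N 0 * (Nat.card (U ⊔ W : AddSubgroup M) : ℝ) := by
    rw [← card_sum, Finset.mul_sum]
    refine Finset.sum_congr rfl (fun y _ => ?_)
    by_cases hy : y ∈ U ⊔ W
    · rw [if_pos hy, h1 y hy, mul_one]
    · rw [if_neg hy, h0 y hy, mul_zero]
  show N y * _ = _
  by_cases hy : y ∈ U ⊔ W
  · rw [if_pos hy, h1 y hy, ← h3, h2]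
  · rw [if_neg hy, h0 y hy, zero_mul]

end fin

section

variable {F : Type} [Field F]

theorem act_injective (g : SL2 F) : Function.Injective (act g) := by
  intro v w h
  have := congrArg (act g⁻¹) h
  rwa [← act_mul, ← act_mul, inv_mul_cancel, act_one, act_one] at this

theorem map_act_mul (g h : SL2 F) (K : AddSubgroup (Fin 2 → F)) :
    K.map (act (g * h)) = (K.map (act h)).map (act g) := by
  rw [AddSubgroup.map_map]
  congr 1
  refine DFunLike.ext _ _ (fun v => ?_)
  rw [AddMonoidHom.comp_apply, act_mul]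

theorem map_act_one (K : AddSubgroup (Fin 2 → F)) : K.map (act (1 : SL2 F)) = K := by
  have : act (1 : SL2 F) = AddMonoidHom.id _ := by
    refine DFunLike.ext _ _ (fun v => ?_)
    rw [act_one]; rfl
  rw [this, AddSubgroup.map_id]

theorem card_map_act (g : SL2 F) (K : AddSubgroup (Fin 2 → F)) :
    Nat.card (K.map (act g)) = Nat.card K :=
  (Nat.card_congr (K.equivMapOfInjective (act g) (act_injective g)).toEquiv).symm

theorem le_US (L : AddSubgroup (Fin 2 → F)) (l : List (SL2 F)) : L ≤ US L l := by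
  cases l with
  | nil => exact le_rfl
  | cons g l => exact le_sup_left

theorem US_append (L : AddSubgroup (Fin 2 → F)) (l l' : List (SL2 F)) :
    US L (l ++ l') = US L l ⊔ (US L l').map (act l.prod) := by
  induction l with
  | nil =>
    rw [List.nil_append, List.prod_nil, map_act_one]
    exact (sup_eq_right.mpr (le_US L l')).symm
  | cons g l ih =>
    rw [List.cons_append, List.prod_cons, map_act_mul]
    show L ⊔ (US L (l ++ l')).map (act g) = (L ⊔ (US L l).map (act g)) ⊔ _
    rw [ih, AddSubgroup.map_sup, sup_assoc]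

variable [Fintype F] [DecidableEq F]

omit [Fintype F] in
theorem mL_eq (L : AddSubgroup (Fin 2 → F)) (l : List (SL2 F)) (v : Fin 2 → F) (M : SL2 F) :
    mL L l ⟨v, M⟩ = if M = l.prod then
      (open Classical in (if v ∈ US L l then (1 : ℝ) else 0)) / (Nat.card (US L l) : ℝ) else 0 := by
  classical
  unfold mL
  by_cases h1 : M = l.prod
  · by_cases h2 : v ∈ US L l
    · rw [if_pos ⟨h1, h2⟩, if_pos h1, if_pos h2]
    · rw [if_neg (fun h => h2 h.2), if_pos h1, if_neg h2, zero_div]
  · rw [if_neg (fun h => h1 h.1), if_neg h1]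

theorem sum_Gp (f : Gp F → ℝ) : ∑ g, f g = ∑ v : Fin 2 → F, ∑ M : SL2 F, f ⟨v, M⟩ := by
  rw [← Fintype.sum_prod_type' (f := fun v M => f ⟨v, M⟩)]
  exact Fintype.sum_equiv (Gp.equiv F) _ _ (fun g => rfl)

omit [DecidableEq F] in
theorem card_pos' (K : AddSubgroup (Fin 2 → F)) : (0 : ℝ) < (Nat.card K : ℝ) := by
  exact_mod_cast Nat.card_pos

/-- **CE-CONV** -/
theorem cnv : S_CONV := by
  classical
  intro F _ _ _ L l l'
  funext y
  rw [conv_apply, sum_Gp]
  have h1 : ∀ v : Fin 2 → F, ∑ M : SL2 F, mL L l ⟨v, M⟩ * mL L l' (⟨v, M⟩⁻¹ * y) =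
      (if v ∈ US L l then (1 : ℝ) else 0) / (Nat.card (US L l) : ℝ) *
        (if y.m = (l ++ l').prod then (if y.v - v ∈ (US L l').map (act l.prod) then (1 : ℝ) else 0) /
          (Nat.card (US L l') : ℝ) else 0) := by
    intro v
    rw [Finset.sum_eq_single l.prod]
    · rw [mL_eq, if_pos rfl]
      congr 1
      have e1 : ((⟨v, l.prod⟩ : Gp F)⁻¹ * y) = ⟨act (l.prod)⁻¹ (y.v - v), (l.prod)⁻¹ * y.m⟩ := by
        refine Gp.ext ?_ rfl
        rw [Gp.mul_v, Gp.inv_v, Gp.inv_m, map_sub]
        show - act (l.prod)⁻¹ v + act (l.prod)⁻¹ y.v = _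
        rw [neg_add_eq_sub]
      rw [e1, mL_eq]
      have e2 : ((l.prod)⁻¹ * y.m = l'.prod) ↔ (y.m = (l ++ l').prod) := by
        rw [inv_mul_eq_iff_eq_mul, List.prod_append]
      have e3 : (act (l.prod)⁻¹ (y.v - v) ∈ US L l') ↔ (y.v - v ∈ (US L l').map (act l.prod)) := by
        constructor
        · intro h
          refine ⟨_, h, ?_⟩
          rw [← act_mul, mul_inv_cancel, act_one]
        · rintro ⟨w, hw, hw2⟩
          rw [← hw2, ← act_mul, inv_mul_cancel, act_one]
          exact hw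
      simp only [e2, e3]
    · intro M _ hM
      rw [mL_eq, if_neg hM, zero_mul]
    · intro h; exact absurd (Finset.mem_univ _) h
  rw [Finset.sum_congr rfl (fun v _ => h1 v)]
  have h2 : mL L (l ++ l') y = mL L (l ++ l') ⟨y.v, y.m⟩ := rfl
  rw [h2, mL_eq, US_append]
  by_cases hy : y.m = (l ++ l').prod
  · simp only [if_pos hy]
    have h3 := sum_count (US L l) ((US L l').map (act l.prod)) y.v
    rw [card_map_act] at h3
    have p1 := card_pos' (US L l)
    have p2 := card_pos' (US L l')
    have p3 := card_pos' (US L l ⊔ (US L l').map (act l.prod))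
    have h4 : ∀ v : Fin 2 → F, (if v ∈ US L l then (1 : ℝ) else 0) / (Nat.card (US L l) : ℝ) *
        ((if y.v - v ∈ (US L l').map (act l.prod) then (1 : ℝ) else 0) / (Nat.card (US L l') : ℝ)) =
        ((if v ∈ US L l then (1 : ℝ) else 0) *
          (if y.v - v ∈ (US L l').map (act l.prod) then (1 : ℝ) else 0)) *
          ((Nat.card (US L l) : ℝ) * (Nat.card (US L l') : ℝ))⁻¹ := by
      intro v
      field_simp
    rw [Finset.sum_congr rfl (fun v _ => h4 v), ← Finset.sum_mul]
    rw [eq_div_iff p3.ne', mul_right_comm, h3]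
    split_ifs
    · field_simp
    · rw [zero_mul]
  · simp only [if_neg hy, mul_zero, Finset.sum_const_zero]

/-- **CE-MASS** -/
theorem mass : S_MASS := by
  classical
  intro F _ _ _ L
  refine ⟨?_, ?_, ?_⟩
  · intro l g
    unfold mL
    split_ifs
    · positivity
    · exact le_rfl
  · intro l
    rw [sum_Gp]
    have h1 : ∀ v : Fin 2 → F, ∑ M : SL2 F, mL L l ⟨v, M⟩ =
        (if v ∈ US L l then (1 : ℝ) else 0) * (Nat.card (US L l) : ℝ)⁻¹ := by
      intro v
      simp only [mL_eq]
      rw [Finset.sum_ite_eq' Finset.univ l.prod, if_pos (Finset.mem_univ _), div_eq_mul_inv]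
    rw [Finset.sum_congr rfl (fun v _ => h1 v), ← Finset.sum_mul, card_sum]
    exact mul_inv_cancel₀ (card_pos' (US L l)).ne'
  · intro h g
    have h1 : US L [h] = (US L [h⁻¹]).map (act h) := by
      show L ⊔ L.map (act h) = (L ⊔ L.map (act h⁻¹)).map (act h)
      rw [AddSubgroup.map_sup, ← map_act_mul, mul_inv_cancel, map_act_one, sup_comm]
    have h2 : mL L [h] g⁻¹ = mL L [h] ⟨- act g.m⁻¹ g.v, g.m⁻¹⟩ := rfl
    have h3 : mL L [h⁻¹] g = mL L [h⁻¹] ⟨g.v, g.m⟩ := rfl
    rw [h2, h3, mL_eq, mL_eq, h1, card_map_act, List.prod_singleton, List.prod_singleton]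
    by_cases hg : g.m = h⁻¹
    · rw [if_pos hg, if_pos (by rw [hg, inv_inv])]
      congr 1
      have e : (- act g.m⁻¹ g.v ∈ (US L [h⁻¹]).map (act h)) ↔ (g.v ∈ US L [h⁻¹]) := by
        rw [neg_mem_iff, hg, inv_inv]
        constructor
        · rintro ⟨w, hw, hw2⟩
          rw [← act_injective h hw2]
          exact hw
        · intro hv
          exact ⟨_, hv, rfl⟩
      simp only [e]
    · rw [if_neg hg, if_neg]
      intro hc
      exact hg (by rw [← hc, inv_inv])

end

end Pool.Agent.Y467.CE
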