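import Pool.Agent.Y171.CE.Stm

/-!
# Mixing from a spectral gap

Job CE-MIX of helper171, done by helper467.
-/

set_option autoImplicit false

namespace Pool.Agent.Y467.CE

open Pool.Agent.Y171.CE

section conv

variable {G : Type} [Group G] [Fintype G]

theorem conv_apply (a b : G → ℝ) (x : G) : conv a b x = ∑ h : G, a h * b (h⁻¹ * x) := rfl

theorem conv_assoc (a b c : G → ℝ) : conv (conv a b) c = conv a (conv b c) := by
  funext x
  simp only [conv_apply, Finset.sum_mul, Finset.mul_sum]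
  rw [Finset.sum_comm]
  refine Finset.sum_congr rfl (fun k _ => ?_)
  refine Fintype.sum_equiv (Equiv.mulLeft k⁻¹) _ _ (fun h => ?_)
  simp only [Equiv.coe_mulLeft, mul_inv_rev, inv_inv]
  rw [mul_assoc]
  congr 3
  group

variable [DecidableEq G]

theorem cpow_zero (μ : G → ℝ) : cpow μ 0 = fun x : G => if x = 1 then (1 : ℝ) else 0 := rfl

theorem cpow_succ (μ : G → ℝ) (t : ℕ) : cpow μ (t + 1) = conv (cpow μ t) μ := by
  unfold cpow
  rw [Function.iterate_succ_apply']
  rfl

theorem conv_delta (a : G → ℝ) : conv a (fun x : G => if x = 1 then (1 : ℝ) else 0) = a := by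
  funext x
  rw [conv_apply, Finset.sum_eq_single x]
  · simp
  · intro h _ hh
    rw [if_neg, mul_zero]
    intro h1
    exact hh (inv_mul_eq_one.mp h1)
  · intro h; exact absurd (Finset.mem_univ x) h

theorem delta_conv (a : G → ℝ) : conv (fun x : G => if x = 1 then (1 : ℝ) else 0) a = a := by
  funext x
  rw [conv_apply, Finset.sum_eq_single 1]
  · simp
  · intro h _ hh
    rw [if_neg hh, zero_mul]
  · intro h; exact absurd (Finset.mem_univ 1) h

theorem cpow_one (μ : G → ℝ) : cpow μ 1 = μ := by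
  rw [cpow_succ, cpow_zero, delta_conv]

theorem cpow_add (μ : G → ℝ) (a b : ℕ) : cpow μ (a + b) = conv (cpow μ a) (cpow μ b) := by
  induction b with
  | zero => rw [cpow_zero, conv_delta, add_zero]
  | succ b ih => rw [← add_assoc, cpow_succ, ih, cpow_succ, conv_assoc]

omit [DecidableEq G] in
theorem sum_conv (a b : G → ℝ) : ∑ x, conv a b x = (∑ x, a x) * ∑ x, b x := by
  simp only [conv_apply]
  rw [Finset.sum_comm, Finset.sum_mul]
  refine Finset.sum_congr rfl (fun h _ => ?_)
  rw [← Finset.mul_sum]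
  congr 1
  exact Fintype.sum_equiv (Equiv.mulLeft h⁻¹) _ _ (fun x => rfl)

theorem sum_cpow {μ : G → ℝ} (h : ∑ g, μ g = 1) (t : ℕ) : ∑ x, cpow μ t x = 1 := by
  induction t with
  | zero => rw [cpow_zero]; simp
  | succ t ih => rw [cpow_succ, sum_conv, ih, h, one_mul]

theorem cpow_nonneg {μ : G → ℝ} (h : ∀ g, 0 ≤ μ g) (t : ℕ) (x : G) : 0 ≤ cpow μ t x := by
  induction t generalizing x with
  | zero => rw [cpow_zero]; dsimp only; split_ifs <;> norm_num
  | succ t ih =>
    rw [cpow_succ, conv_apply]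
    exact Finset.sum_nonneg (fun y _ => mul_nonneg (ih y) (h _))

theorem cpow_symm {μ : G → ℝ} (h : ∀ g, μ g⁻¹ = μ g) (t : ℕ) (x : G) :
    cpow μ t x⁻¹ = cpow μ t x := by
  induction t generalizing x with
  | zero => rw [cpow_zero]; simp
  | succ t ih =>
    have e : cpow μ (t + 1) = conv μ (cpow μ t) := by rw [add_comm, cpow_add, cpow_one]
    calc cpow μ (t + 1) x⁻¹ = ∑ k, cpow μ t k * μ (k⁻¹ * x⁻¹) := by rw [cpow_succ, conv_apply]
      _ = ∑ j, μ j * cpow μ t (j⁻¹ * x) := by
          refine Fintype.sum_equiv (Equiv.mulLeft x) _ _ (fun k => ?_)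
          rw [Equiv.coe_mulLeft, mul_comm (μ _)]
          congr 1
          · rw [← ih k]
            congr 1
            group
          · rw [← h (x * k)]
            congr 1
            group
      _ = cpow μ (t + 1) x := by rw [e, conv_apply]

omit [DecidableEq G] in
theorem T_eq {μ : G → ℝ} (h : ∀ g, μ g⁻¹ = μ g) (q : G → ℝ) (x : G) :
    T μ (fun y => (q y : ℂ)) x = (conv q μ x : ℂ) := by
  rw [conv_apply]
  unfold T
  push_cast
  refine Fintype.sum_equiv (Equiv.mulLeft x) _ _ (fun k => ?_)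
  rw [Equiv.coe_mulLeft, mul_comm (μ k : ℂ)]
  congr 2
  rw [← h k]
  congr 1
  group

end conv

/-- **CE-MIX** -/
theorem mix' : S_MIX := by
  intro G _ _ _ μ θ hnn h1 hs hθ hgap m n
  set u : ℝ := 1 / (Fintype.card G : ℝ) with hu
  have hcard : (0 : ℝ) < Fintype.card G := by exact_mod_cast Fintype.card_pos
  have hcu : (Fintype.card G : ℝ) * u = 1 := by rw [hu]; field_simp
  -- the step
  have hstep : ∀ t x, T μ (fun y => ((cpow μ t y - u : ℝ) : ℂ)) x = ((cpow μ (t + 1) x - u : ℝ) : ℂ) := by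
    intro t x
    rw [T_eq hs (fun y => cpow μ t y - u), cpow_succ]
    norm_cast
    rw [conv_apply, conv_apply]
    simp only [sub_mul, Finset.sum_sub_distrib, ← Finset.mul_sum]
    congr 1
    have : ∑ i, μ (i⁻¹ * x) = 1 := by
      rw [← h1]
      exact Fintype.sum_equiv ((Equiv.inv G).trans (Equiv.mulRight x)) _ _ (fun k => rfl)
    rw [this, mul_one]
  have hzero : ∀ t, ∑ x, ((cpow μ t x - u : ℝ) : ℂ) = 0 := by
    intro t
    norm_cast
    rw [Finset.sum_sub_distrib, sum_cpow h1, Finset.sum_const, Finset.card_univ, nsmul_eq_mul, hcu,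
      sub_self]
  have hsq : ∀ t, Y171.CE.sq (fun y => ((cpow μ t y - u : ℝ) : ℂ)) = ∑ y, (cpow μ t y - u) ^ 2 := by
    intro t
    unfold Y171.CE.sq
    refine Finset.sum_congr rfl (fun y _ => ?_)
    rw [Complex.norm_real, Real.norm_eq_abs, sq_abs]
  have hdec : ∀ m, ∑ y, (cpow μ (m + n) y - u) ^ 2 ≤ θ ^ m * ∑ y, (cpow μ n y - u) ^ 2 := by
    intro m
    induction m with
    | zero => simp
    | succ m ih =>
      have h2 := hgap _ (hzero (m + n))
      have h3 : T μ (fun y => ((cpow μ (m + n) y - u : ℝ) : ℂ)) =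
          fun y => ((cpow μ (m + n + 1) y - u : ℝ) : ℂ) := funext (hstep (m + n))
      rw [h3, hsq, hsq] at h2
      rw [add_right_comm]
      refine h2.trans ?_
      rw [pow_succ', mul_assoc]
      exact mul_le_mul_of_nonneg_left ih hθ
  have hq : ∑ y, (cpow μ n y - u) ^ 2 ≤ cpow μ (2 * n) 1 := by
    have e1 : cpow μ (2 * n) 1 = ∑ y, cpow μ n y ^ 2 := by
      rw [two_mul, cpow_add, conv_apply]
      refine Finset.sum_congr rfl (fun y _ => ?_)
      rw [mul_one, cpow_symm hs, pow_two]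
    have e2 : ∑ y, (cpow μ n y - u) ^ 2 = ∑ y, cpow μ n y ^ 2 - u := by
      have : ∀ y, (cpow μ n y - u) ^ 2 = cpow μ n y ^ 2 - 2 * u * cpow μ n y + u ^ 2 := fun y => by ring
      simp only [this, Finset.sum_add_distrib, Finset.sum_sub_distrib, ← Finset.mul_sum]
      rw [sum_cpow h1, Finset.sum_const, Finset.card_univ, nsmul_eq_mul, pow_two u, ← mul_assoc, hcu]
      ring
    rw [e1, e2]
    have : 0 ≤ u := by positivity
    linarith
  have hcs : l1 (cpow μ (m + n)) ^ 2 ≤ Fintype.card G * ∑ y, (cpow μ (m + n) y - u) ^ 2 := by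
    unfold l1
    have := sq_sum_le_card_mul_sum_sq (s := (Finset.univ : Finset G))
      (f := fun x => |cpow μ (m + n) x - u|)
    simp only [sq_abs, Finset.card_univ] at this
    exact this
  refine hcs.trans ?_
  rw [mul_assoc]
  refine mul_le_mul_of_nonneg_left ((hdec m).trans ?_) hcard.le
  exact mul_le_mul_of_nonneg_left hq (pow_nonneg hθ m)

end Pool.Agent.Y467.CE
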