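import Pool.Agent.Y467.CE.Conv

/-!
# Powers of mixtures

Job CE-POW of helper171, done by helper467.
-/

set_option autoImplicit false

namespace Pool.Agent.Y467.CE

open Pool.Agent.Y171.CE

/-- sums over functions on `Fin (t + 1)` -/
theorem sum_snoc {ι : Type} [Fintype ι] (t : ℕ) (f : (Fin (t + 1) → ι) → ℝ) :
    ∑ h, f h = ∑ h : Fin t → ι, ∑ i : ι, f (Fin.snoc (α := fun _ => ι) h i) := by
  rw [Finset.sum_comm, ← Fintype.sum_prod_type' (f := fun i h => f (Fin.snoc (α := fun _ => ι) h i))]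
  exact (Fintype.sum_equiv (Fin.snocEquiv (fun _ : Fin (t + 1) => ι)) _ _ (fun x => rfl)).symm

theorem ofFn_snoc {ι κ : Type} (t : ℕ) (s : ι → κ) (h : Fin t → ι) (i : ι) :
    List.ofFn (fun j => s (Fin.snoc (α := fun _ => ι) h i j)) =
      List.ofFn (fun j => s (h j)) ++ [s i] := by
  rw [List.ofFn_succ', List.concat_eq_append]
  simp

theorem conv_sum_left {G : Type} [Group G] [Fintype G] {α : Type} [Fintype α] (w : α → ℝ)
    (a : α → G → ℝ) (b : G → ℝ) :
    conv (fun x => ∑ i, w i * a i x) b = fun x => ∑ i, w i * conv (a i) b x := by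
  funext x
  simp only [conv_apply, Finset.sum_mul, Finset.mul_sum]
  rw [Finset.sum_comm]
  refine Finset.sum_congr rfl (fun i _ => Finset.sum_congr rfl (fun h _ => ?_))
  ring

theorem conv_sum_right {G : Type} [Group G] [Fintype G] {α : Type} [Fintype α] (w : α → ℝ)
    (b : G → ℝ) (a : α → G → ℝ) :
    conv b (fun x => ∑ i, w i * a i x) = fun x => ∑ i, w i * conv b (a i) x := by
  funext x
  simp only [conv_apply, Finset.mul_sum]
  rw [Finset.sum_comm]
  refine Finset.sum_congr rfl (fun i _ => Finset.sum_congr rfl (fun h _ => ?_))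
  ring

/-- **CE-POW** -/
theorem pow (hconv : S_CONV) : S_POW := by
  intro F _ _ _ L ι _ s ω t ht
  induction t, ht using Nat.le_induction with
  | base =>
    rw [cpow_one]
    funext g
    unfold mix
    refine Fintype.sum_equiv (Equiv.funUnique (Fin 1) ι).symm _ _ (fun i => ?_)
    simp
  | succ t ht ih =>
    rw [cpow_succ, ih]
    have h1 : mix L s ω = fun g => ∑ i, ω i * mL L [s i] g := rfl
    rw [h1, conv_sum_left]
    funext g
    rw [sum_snoc]
    refine Finset.sum_congr rfl (fun h _ => ?_)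
    rw [conv_sum_right]
    simp only
    rw [Finset.mul_sum]
    refine Finset.sum_congr rfl (fun i _ => ?_)
    rw [hconv, ofFn_snoc, Fin.prod_univ_castSucc]
    simp only [Fin.snoc_castSucc, Fin.snoc_last]
    ring

theorem pw_append {p : ℕ} {R : Type} [CommRing R] [Algebra (ZMod p) R] (x : R) (l l' : List (NilT p)) :
    pw x (l ++ l') = pw x l * pw x l' := by
  unfold pw
  rw [List.map_append, List.prod_append]

open Classical in
/-- powers of the measure on `SL_2(F)` -/
theorem muq_sum (p : ℕ) [NeZero p] (F : Type) [Field F] [Fintype F] [DecidableEq F]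
    [Algebra (ZMod p) F] (x : F) (n : ℕ) (M : SL2 F) :
    cpow (muQ (p := p) x) n M =
      ∑ h : Fin n → NilT p, if pw x (List.ofFn h) = M then (1 / (p : ℝ) ^ 2) ^ n else 0 := by
  induction n generalizing M with
  | zero =>
    rw [cpow_zero, Fintype.sum_unique]
    simp only [List.ofFn_zero, pow_zero]
    have : pw x ([] : List (NilT p)) = (1 : SL2 F) := rfl
    rw [this]
    by_cases h : M = 1
    · rw [if_pos h, if_pos h.symm]
    · rw [if_neg h, if_neg (fun h' => h h'.symm)]
  | succ n ih =>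
    rw [cpow_succ, conv_apply, sum_snoc]
    simp only [ih, Finset.sum_mul]
    rw [Finset.sum_comm]
    refine Finset.sum_congr rfl (fun h _ => ?_)
    rw [Finset.sum_eq_single (pw x (List.ofFn h))]
    · rw [if_pos rfl]
      unfold muQ
      rw [Finset.mul_sum]
      refine Finset.sum_congr rfl (fun N _ => ?_)
      have e1 : pw x (List.ofFn (Fin.snoc (α := fun _ => NilT p) h N)) =
          pw x (List.ofFn h) * st x N := by
        have := ofFn_snoc n (id : NilT p → NilT p) h N
        simp only [id] at this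
        rw [this, pw_append]
        congr 1
        exact List.prod_singleton
      rw [e1]
      have e2 : (st x N = (pw x (List.ofFn h))⁻¹ * M) ↔ (pw x (List.ofFn h) * st x N = M) := by
        rw [eq_inv_mul_iff_mul_eq]
      by_cases hc : pw x (List.ofFn h) * st x N = M
      · rw [if_pos hc, if_pos (e2.mpr hc), pow_succ (1 / (p : ℝ) ^ 2) n]
      · rw [if_neg hc, if_neg (fun h' => hc (e2.mp h')), mul_zero]
    · intro K _ hK
      rw [if_neg (fun h' => hK h'.symm), zero_mul]
    · intro h'; exact absurd (Finset.mem_univ _) h'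

/-- **CE-MUQ** -/
theorem muq : S_MUQ := by
  classical
  intro p hp F _ _ _ _ x n M
  have : NeZero p := ⟨hp.out.ne_zero⟩
  have h1 := muq_sum p F x n M
  have h2 : ∀ h : Fin n → NilT p, (if pw x (List.ofFn h) = M then (1 / (p : ℝ) ^ 2) ^ n else 0) =
      (if pw x (List.ofFn h) = M then (1 : ℝ) else 0) * (1 / (p : ℝ) ^ 2) ^ n := by
    intro h
    split_ifs <;> simp
  rw [Finset.sum_congr rfl (fun h _ => h2 h), ← Finset.sum_mul, Finset.sum_boole,
    ← Fintype.card_subtype, ← Nat.card_eq_fintype_card] at h1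
  rw [div_eq_mul_inv, ← inv_pow, ← one_div]
  convert h1

/-- **CE-QP** -/
theorem qp (hnil : S_NIL) (hmuq : S_MUQ) : S_QP := by
  classical
  intro p hp F _ _ _ _ x n β _ _ r
  have : NeZero p := ⟨hp.out.ne_zero⟩
  set q : SL2 F → ℝ := cpow (muQ (p := p) x) n with hq
  have hβ : (0 : ℝ) < Fintype.card β := by exact_mod_cast Fintype.card_pos
  have hcard : (Fintype.card ((Fin n → NilT p) × β) : ℝ) = ((p : ℝ) ^ 2) ^ n * Fintype.card β := by
    rw [Fintype.card_prod, Fintype.card_fun, Fintype.card_fin]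
    have h1 : Fintype.card (NilT p) = p ^ 2 := by
      rw [← hnil p]
    rw [h1]
    push_cast
    rfl
  have hlaw : ∀ M : SL2 F,
      ((Finset.univ.filter (fun a : (Fin n → NilT p) × β => pw x (List.ofFn a.1) * r a.2 = M)).card : ℝ)
      / (Fintype.card ((Fin n → NilT p) × β) : ℝ) = (1 / (Fintype.card β : ℝ)) * ∑ b, q (M * (r b)⁻¹) := by
    intro M
    have h1 : ((Finset.univ.filter (fun a : (Fin n → NilT p) × β => pw x (List.ofFn a.1) * r a.2 = M)).card : ℝ)
        = ∑ b : β, ∑ h : Fin n → NilT p, if pw x (List.ofFn h) = M * (r b)⁻¹ then (1 : ℝ) else 0 := by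
      rw [← Finset.sum_boole, Fintype.sum_prod_type, Finset.sum_comm]
      refine Finset.sum_congr rfl (fun b _ => Finset.sum_congr rfl (fun h _ => ?_))
      have : (pw x (List.ofFn h) * r b = M) ↔ (pw x (List.ofFn h) = M * (r b)⁻¹) := by
        rw [eq_mul_inv_iff_mul_eq]
      simp only [this]
    have h2 : ∀ b, (∑ h : Fin n → NilT p, if pw x (List.ofFn h) = M * (r b)⁻¹ then (1 : ℝ) else 0) =
        q (M * (r b)⁻¹) * ((p : ℝ) ^ 2) ^ n := by
      intro b
      have hp0 : (p : ℝ) ≠ 0 := by exact_mod_cast hp.out.ne_zero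
      have h3 := hmuq p F x n (M * (r b)⁻¹)
      have h4 : q (M * (r b)⁻¹) = (Nat.card {h : Fin n → NilT p // pw x (List.ofFn h) = M * (r b)⁻¹} : ℝ) /
          ((p : ℝ) ^ 2) ^ n := by
        rw [hq, ← h3]
      rw [h4, div_mul_cancel₀ _ (by positivity), Finset.sum_boole, Nat.card_eq_fintype_card,
        Fintype.card_subtype]
    rw [h1, Finset.sum_congr rfl (fun b _ => h2 b), ← Finset.sum_mul, hcard]
    have hp0 : (p : ℝ) ≠ 0 := by exact_mod_cast hp.out.ne_zero
    field_simp
  have hl : l1 (fun M : SL2 F => ((Finset.univ.filter (fun a : (Fin n → NilT p) × β => pw x (List.ofFn a.1) * r a.2 = M)).card : ℝ)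
      / (Fintype.card ((Fin n → NilT p) × β) : ℝ)) =
      ∑ M : SL2 F, |(1 / (Fintype.card β : ℝ)) * ∑ b, q (M * (r b)⁻¹) - 1 / (Fintype.card (SL2 F) : ℝ)| := by
    unfold l1
    refine Finset.sum_congr rfl (fun M _ => ?_)
    simp only [hlaw]
  have hgoal : ∑ M : SL2 F, |(1 / (Fintype.card β : ℝ)) * ∑ b, q (M * (r b)⁻¹) - 1 / (Fintype.card (SL2 F) : ℝ)|
      ≤ l1 q := by
    have h1 : ∀ M : SL2 F, |(1 / (Fintype.card β : ℝ)) * ∑ b, q (M * (r b)⁻¹) - 1 / (Fintype.card (SL2 F) : ℝ)| ≤
        (1 / (Fintype.card β : ℝ)) * ∑ b, |q (M * (r b)⁻¹) - 1 / (Fintype.card (SL2 F) : ℝ)| := by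
      intro M
      have : (1 / (Fintype.card β : ℝ)) * ∑ b, q (M * (r b)⁻¹) - 1 / (Fintype.card (SL2 F) : ℝ) =
          (1 / (Fintype.card β : ℝ)) * ∑ b, (q (M * (r b)⁻¹) - 1 / (Fintype.card (SL2 F) : ℝ)) := by
        rw [Finset.sum_sub_distrib, Finset.sum_const, Finset.card_univ, nsmul_eq_mul]
        field_simp
      rw [this, abs_mul, abs_of_nonneg (by positivity)]
      exact mul_le_mul_of_nonneg_left (Finset.abs_sum_le_sum_abs _ _) (by positivity)
    refine (Finset.sum_le_sum (fun M _ => h1 M)).trans ?_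
    rw [← Finset.mul_sum, Finset.sum_comm]
    have h2 : ∀ b : β, ∑ M : SL2 F, |q (M * (r b)⁻¹) - 1 / (Fintype.card (SL2 F) : ℝ)| = l1 q := by
      intro b
      exact Fintype.sum_equiv (Equiv.mulRight (r b)⁻¹) _ _ (fun M => rfl)
    rw [Finset.sum_congr rfl (fun b _ => h2 b), Finset.sum_const, Finset.card_univ, nsmul_eq_mul]
    rw [← mul_assoc, one_div_mul_cancel hβ.ne', one_mul]
  refine le_trans (le_of_eq ?_) hgoal
  rw [← hl]

end Pool.Agent.Y467.CE
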