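import Pool.Agent.Y467.CE.Conv

/-!
# Comparison of mixtures of list measures with uniform; symmetry

Job CE-TVL of helper171, done by helper467.
-/

set_option autoImplicit false

namespace Pool.Agent.Y467.CE

open Pool.Agent.Y171.CE

/-- **CE-TVL** -/
theorem tvl (hmass : S_MASS) : S_TVL := by
  classical
  intro F _ _ _ L α _ _ l
  obtain ⟨hnn, hone, -⟩ := hmass F L
  have hα : (0 : ℝ) < Fintype.card α := by exact_mod_cast Fintype.card_pos
  set V : ℝ := (Fintype.card (Fin 2 → F) : ℝ) with hV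
  have hVpos : 0 < V := by rw [hV]; exact_mod_cast Fintype.card_pos
  have hQpos : (0 : ℝ) < Fintype.card (SL2 F) := by exact_mod_cast Fintype.card_pos
  have hcardG : (Fintype.card (Gp F) : ℝ) = V * Fintype.card (SL2 F) := by
    rw [Fintype.card_congr (Gp.equiv F), Fintype.card_prod]
    push_cast
    rfl
  let lam : α → Gp F → ℝ := fun a y => if (l a).prod = y.m then 1 / V else 0
  have hlnn : ∀ a y, 0 ≤ lam a y := by
    intro a y
    simp only [lam]
    split_ifs
    · positivity
    · exact le_rfl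
  have hlone : ∀ a, ∑ y, lam a y = 1 := by
    intro a
    rw [sum_Gp]
    have : ∀ v : Fin 2 → F, ∑ M : SL2 F, lam a ⟨v, M⟩ = 1 / V := by
      intro v
      simp only [lam]
      rw [Finset.sum_ite_eq, if_pos (Finset.mem_univ _)]
    rw [Finset.sum_congr rfl (fun v _ => this v), Finset.sum_const, Finset.card_univ, nsmul_eq_mul]
    rw [mul_one_div_cancel hVpos.ne']
  have hgood : ∀ a, US L (l a) = ⊤ → ∀ y, mL L (l a) y = lam a y := by
    intro a ha y
    have h1 : mL L (l a) y = mL L (l a) ⟨y.v, y.m⟩ := rfl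
    rw [h1, mL_eq, ha]
    simp only [lam]
    have h2 : (Nat.card (⊤ : AddSubgroup (Fin 2 → F)) : ℝ) = V := by
      rw [AddSubgroup.card_top, Nat.card_eq_fintype_card]
    rw [h2, if_pos (AddSubgroup.mem_top _)]
    by_cases h : y.m = (l a).prod
    · rw [if_pos h, if_pos h.symm]
    · rw [if_neg h, if_neg (fun h' => h h'.symm)]
  -- the pointwise bound
  have hpt : ∀ y : Gp F, |1 / (Fintype.card α : ℝ) * ∑ a : α, mL L (l a) y - 1 / (Fintype.card (Gp F) : ℝ)| ≤
      (1 / (Fintype.card α : ℝ)) * ∑ a ∈ Finset.univ.filter (fun a : α => US L (l a) ≠ ⊤),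
        (mL L (l a) y + lam a y) +
      |1 / (Fintype.card α : ℝ) * ∑ a : α, lam a y - 1 / (Fintype.card (Gp F) : ℝ)| := by
    intro y
    have h1 : 1 / (Fintype.card α : ℝ) * ∑ a : α, mL L (l a) y - 1 / (Fintype.card (Gp F) : ℝ) =
        (1 / (Fintype.card α : ℝ)) * ∑ a : α, (mL L (l a) y - lam a y) +
        (1 / (Fintype.card α : ℝ) * ∑ a : α, lam a y - 1 / (Fintype.card (Gp F) : ℝ)) := by
      rw [Finset.sum_sub_distrib]
      ring
    rw [h1]
    refine (abs_add_le _ _).trans (add_le_add ?_ le_rfl)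
    rw [abs_mul, abs_of_nonneg (by positivity)]
    refine mul_le_mul_of_nonneg_left ?_ (by positivity)
    refine (Finset.abs_sum_le_sum_abs _ _).trans ?_
    rw [Finset.sum_filter]
    refine Finset.sum_le_sum (fun a _ => ?_)
    split_ifs with h
    · refine (abs_sub _ _).trans ?_
      rw [abs_of_nonneg (hnn _ _), abs_of_nonneg (hlnn _ _)]
    · rw [hgood a (not_not.mp h), sub_self, abs_zero]
  have hsum1 : ∑ y : Gp F, (1 / (Fintype.card α : ℝ)) *
      ∑ a ∈ Finset.univ.filter (fun a : α => US L (l a) ≠ ⊤), (mL L (l a) y + lam a y) =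
      2 * ((Finset.univ.filter (fun a : α => US L (l a) ≠ ⊤)).card / (Fintype.card α : ℝ)) := by
    rw [← Finset.mul_sum, Finset.sum_comm]
    have : ∀ a, ∑ y, (mL L (l a) y + lam a y) = 2 := by
      intro a
      rw [Finset.sum_add_distrib, hone, hlone]
      norm_num
    rw [Finset.sum_congr rfl (fun a _ => this a), Finset.sum_const, nsmul_eq_mul]
    ring
  have hsum2 : ∑ y : Gp F, |1 / (Fintype.card α : ℝ) * ∑ a : α, lam a y - 1 / (Fintype.card (Gp F) : ℝ)| =
      l1 (fun M : SL2 F => ((Finset.univ.filter (fun a : α => (l a).prod = M)).card : ℝ) /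
        (Fintype.card α : ℝ)) := by
    rw [sum_Gp]
    unfold l1
    have h1 : ∀ (v : Fin 2 → F) (M : SL2 F), |1 / (Fintype.card α : ℝ) * ∑ a : α, lam a ⟨v, M⟩ -
        1 / (Fintype.card (Gp F) : ℝ)| = (1 / V) *
        |((Finset.univ.filter (fun a : α => (l a).prod = M)).card : ℝ) / (Fintype.card α : ℝ) -
          1 / (Fintype.card (SL2 F) : ℝ)| := by
      intro v M
      have h2 : ∑ a : α, lam a ⟨v, M⟩ =
          ((Finset.univ.filter (fun a : α => (l a).prod = M)).card : ℝ) * (1 / V) := by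
        rw [← Finset.sum_boole, Finset.sum_mul]
        refine Finset.sum_congr rfl (fun a _ => ?_)
        simp only [lam]
        split_ifs <;> simp
      rw [h2, hcardG]
      rw [← abs_of_nonneg (show 0 ≤ 1 / V by positivity), ← abs_mul,
        abs_of_nonneg (show 0 ≤ 1 / V by positivity)]
      congr 1
      field_simp
    simp only [h1]
    rw [Finset.sum_const, Finset.card_univ, nsmul_eq_mul, ← Finset.mul_sum, ← mul_assoc,
      mul_one_div_cancel hVpos.ne', one_mul]
  unfold l1
  refine (Finset.sum_le_sum (fun y _ => hpt y)).trans (le_of_eq ?_)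
  rw [Finset.sum_add_distrib, hsum1, hsum2]
  rfl

/-- the opposite nilpotent matrix -/
def neg {p : ℕ} (N : NilT p) : NilT p :=
  ⟨(-N.1.1, -N.1.2.1, -N.1.2.2), by
    have h := N.2
    show -N.1.1 * -N.1.1 + -N.1.2.1 * -N.1.2.2 = 0
    rw [neg_mul_neg, neg_mul_neg]
    exact h⟩

theorem neg_neg' {p : ℕ} (N : NilT p) : neg (neg N) = N := by
  apply Subtype.ext
  show (- -N.1.1, - -N.1.2.1, - -N.1.2.2) = N.1
  simp

def negEquiv (p : ℕ) : NilT p ≃ NilT p := ⟨neg, neg, neg_neg', neg_neg'⟩

theorem st_neg {p : ℕ} {R : Type} [CommRing R] [Algebra (ZMod p) R] (x : R) (N : NilT p) :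
    st x (neg N) = (st x N)⁻¹ := by
  apply Subtype.ext
  rw [Matrix.SpecialLinearGroup.SL2_inv_expl]
  ext i j
  fin_cases i <;> fin_cases j <;> (simp [st, neg]; try ring)

/-- **CE-SYM** -/
theorem sym (hnil : S_NIL) (hmass : S_MASS) : S_SYM := by
  classical
  intro p hp F _ _ _ _ L x
  have hp0 : (p : ℝ) ≠ 0 := by exact_mod_cast hp.out.ne_zero
  obtain ⟨hnn, hone, hsym⟩ := hmass F L
  have hcard : ∑ _N : NilT p, (1 / (p : ℝ) ^ 2) = 1 := by
    rw [Finset.sum_const, Finset.card_univ, nsmul_eq_mul, hnil p]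
    push_cast
    field_simp
  refine ⟨?_, ?_, ?_, ?_, ?_, ?_⟩
  · intro g
    unfold mu0 mix
    exact Finset.sum_nonneg (fun N _ => mul_nonneg (by positivity) (hnn _ _))
  · unfold mu0 mix
    rw [Finset.sum_comm]
    refine Eq.trans ?_ hcard
    refine Finset.sum_congr rfl (fun N _ => ?_)
    rw [← Finset.mul_sum, hone, mul_one]
  · intro g
    unfold mu0 mix
    refine Fintype.sum_equiv (negEquiv p) _ _ (fun N => ?_)
    rw [hsym]
    congr 2
    show [(st x N)⁻¹] = [st x (neg N)]
    rw [st_neg]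
  · intro g
    unfold muQ
    refine Finset.sum_nonneg (fun N _ => ?_)
    split_ifs
    · positivity
    · exact le_rfl
  · unfold muQ
    rw [Finset.sum_comm]
    refine Eq.trans ?_ hcard
    refine Finset.sum_congr rfl (fun N _ => ?_)
    rw [Finset.sum_ite_eq, if_pos (Finset.mem_univ _)]
  · intro g
    unfold muQ
    refine Fintype.sum_equiv (negEquiv p) _ _ (fun N => ?_)
    have : (st x N = g⁻¹) ↔ (st x (negEquiv p N) = g) := by
      show _ ↔ st x (neg N) = g
      rw [st_neg, inv_eq_iff_eq_inv]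
    simp only [this]

end Pool.Agent.Y467.CE
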