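import Pool.Agent.Y171.CE.Stm

/-!
# No cut-off from a slow and a fast time

Job CE-NOCUT of helper171, done by helper467.
-/

set_option autoImplicit false

namespace Pool.Agent.Y467.CE

open Pool.Agent.Y171.CE
open Filter Topology

/-- **CE-NOCUT** -/
theorem nocut : S_NOCUT := by
  intro d c A B n0 hc hA hAB hmono hfast hslow
  rintro ⟨t, ht, hcut⟩
  obtain ⟨h0, h1⟩ := hcut (1 / 1000) (by norm_num) (by norm_num)
  have e0 : ∀ᶠ n in atTop, d n ⌈(1 + 1 / 1000) * t n⌉₊ < c := h0.eventually_lt_const hc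
  have e1 : ∀ᶠ n in atTop, 1 - c < d n ⌊(1 - 1 / 1000) * t n⌋₊ :=
    h1.eventually_const_lt (by linarith)
  have e2 : ∀ᶠ n in atTop, 1 ≤ t n := ht.eventually_ge_atTop 1
  obtain ⟨n, hn⟩ := (e0.and (e1.and (e2.and (hfast.and hslow)))).exists
  obtain ⟨g0, g1, g2, g3, g4⟩ := hn
  have k0 : B * (n + n0) < ⌈(1 + 1 / 1000) * t n⌉₊ := by
    by_contra hcon
    have := hmono n _ _ (not_lt.mp hcon)
    linarith
  have k1 : ⌊(1 - 1 / 1000) * t n⌋₊ < A * (n + n0) := by
    by_contra hcon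
    have := hmono n _ _ (not_lt.mp hcon)
    linarith
  rw [Nat.lt_ceil] at k0
  have k2 : (1 - 1 / 1000) * t n < ((A * (n + n0) : ℕ) : ℝ) := (Nat.floor_lt (by linarith)).mp k1
  push_cast at k0 k2
  have hAB' : (101 : ℝ) * A ≤ 100 * B := by exact_mod_cast hAB
  have hm : (0 : ℝ) ≤ (n : ℝ) + n0 := by positivity
  have h3 : (101 : ℝ) * (A * (n + n0)) ≤ 100 * (B * (n + n0)) := by
    have := mul_le_mul_of_nonneg_right hAB' hm
    linarith
  have h4 : (0 : ℝ) ≤ A * ((n : ℝ) + n0) := by positivity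
  linarith

end Pool.Agent.Y467.CE
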